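import Pool.Agent.helper43.BMH.Spec

/-!
# Row PRM
-/

set_option autoImplicit false

namespace Pool.Agent.helper43.BMH

theorem t_prm : PRM := by
  intro ι _ _ m c c'
  have hcard : Fintype.card {g : Equiv.Perm ι // c ∘ g = c} =
      ∏ a : Fin m, (Finset.univ.filter fun i => c i = a).card.factorial := by
    rw [DomMulAct.stabilizer_card]
    apply Finset.prod_congr rfl
    intro a _
    rw [Fintype.card_subtype]
  rw [← hcard, Fintype.card_subtype]
  rcases Finset.eq_empty_or_nonempty
    (Finset.univ.filter fun σ : Equiv.Perm ι => ∀ i, c' (σ i) = c i) with h | ⟨σ₀, h⟩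
  · rw [h, Finset.card_empty]
    exact Nat.zero_le _
  · rw [Finset.mem_filter] at h
    apply Finset.card_le_card_of_injOn (fun σ => σ₀⁻¹ * σ)
    · intro σ hσ
      rw [Finset.mem_coe, Finset.mem_filter] at hσ
      rw [Finset.mem_coe, Finset.mem_filter]
      refine ⟨Finset.mem_univ _, ?_⟩
      funext i
      have h1 := h.2 (σ₀⁻¹ (σ i))
      have h2 : σ₀ (σ₀⁻¹ (σ i)) = σ i := Equiv.apply_symm_apply σ₀ (σ i)
      rw [h2] at h1
      show c (σ₀⁻¹ (σ i)) = c i
      rw [← h1]
      exact hσ.2 i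
    · intro σ _ τ _ h1
      exact mul_left_cancel h1

end Pool.Agent.helper43.BMH
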